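import Mathlib

/-!
# Budgeted sharing games: definitions
-/

namespace Pool.Agent.H.MP_2a1065_lc

open Finset

/-- An instance of the budgeted sharing game with set of agents `U` and set of sites `H`: the
interest graph, query rates `q`, costs `C` and budgets `B`, all positive. -/
structure Game (U H : Type) where
  /-- the bipartite graph: `interested j i` means that agent `j` is interested in site `i` -/
  interested : U → H → Prop
  /-- query rates -/
  q : H → ℝ
  /-- costs -/
  C : H → ℝ
  /-- budgets -/
  B : U → ℝ
  q_pos : ∀ i, 0 < q i
  C_pos : ∀ i, 0 < C i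
  B_pos : ∀ j, 0 < B j

namespace Game

variable {U H : Type} [Fintype U] [DecidableEq U] [DecidableEq H] (G : Game U H)

/-- A feasible strategy of agent `j`: a set of sites in which `j` is interested, of total cost
at most the budget of `j`. -/
def Feasible (j : U) (s : Finset H) : Prop :=
  (∀ i ∈ s, G.interested j i) ∧ ∑ i ∈ s, G.C i ≤ G.B j

/-- A state assigns a feasible strategy to every agent. -/
def IsState (S : U → Finset H) : Prop := ∀ j, G.Feasible j (S j)

/-- The number `n_i` of agents serving site `i`. -/
def load (S : U → Finset H) (i : H) : ℕ := (univ.filter fun j => i ∈ S j).card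

/-- The payoff `α_j(S)` of agent `j`. -/
noncomputable def payoff (S : U → Finset H) (j : U) : ℝ :=
  ∑ i ∈ S j, G.q i / (load S i : ℝ)

/-- `s` is a best response of agent `j` to the strategies of the others in `S`. -/
def BestResponse (S : U → Finset H) (j : U) (s : Finset H) : Prop :=
  G.Feasible j s ∧ ∀ s' : Finset H, G.Feasible j s' →
    G.payoff (Function.update S j s') j ≤ G.payoff (Function.update S j s) j

/-- A (strictly improving) best-response move from `S` to `S'`. -/
def Move (S S' : U → Finset H) : Prop :=
  ∃ (j : U) (s : Finset H), G.BestResponse S j s ∧ S' = Function.update S j s ∧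
    G.payoff S j < G.payoff S' j

/-- `p 0, p 1, …, p T` is a best-response path of length `T` (with `T` moves). -/
def IsPath (T : ℕ) (p : ℕ → U → Finset H) : Prop :=
  (∀ t, t ≤ T → G.IsState (p t)) ∧ ∀ t, t < T → G.Move (p t) (p (t + 1))

end Game

end Pool.Agent.H.MP_2a1065_lc
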