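import Pool.Agent.H.MP_2a1065_lc.Defs

/-!
# Exponentially long best-response paths in budgeted sharing games: the construction

Agents are the nodes of a network. Node `v` owns a private site of cost `|E|` and shares a site of
cost `1` with each neighbour; all budgets are `|E|`. Hence node `v` either serves its private site
(`off`) or all its edges (`on`), and prefers `on` iff few of its neighbours are on. A chain of `L`
copies of a four-node gadget makes the output node of each gadget flip twice for every flip of its
input node, which gives about `2 ^ L` moves.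
-/

set_option linter.unusedSectionVars false

namespace Pool.Agent.H.MP_2a1065_lc

open Finset

/-! ### General facts about deviations -/

section General

variable {U H : Type} [Fintype U] [DecidableEq U] [DecidableEq H] (G : Game U H)

/-- The number of agents other than `j` that serve `i`. -/
def others (S : U → Finset H) (j : U) (i : H) : ℕ :=
  (univ.filter fun k => k ≠ j ∧ i ∈ S k).card

lemma load_update (S : U → Finset H) (j : U) (s : Finset H) (i : H) (hi : i ∈ s) :
    Game.load (Function.update S j s) i = others S j i + 1 := by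
  unfold Game.load others
  have : (univ.filter fun k => i ∈ Function.update S j s k)
      = insert j (univ.filter fun k => k ≠ j ∧ i ∈ S k) := by
    ext k
    by_cases hk : k = j
    · subst hk; simp [hi]
    · simp [hk]
  rw [this, card_insert_of_notMem (by simp)]

lemma payoff_update (S : U → Finset H) (j : U) (s : Finset H) :
    G.payoff (Function.update S j s) j = ∑ i ∈ s, G.q i / ((others S j i : ℝ) + 1) := by
  unfold Game.payoff
  rw [Function.update_self]
  refine sum_congr rfl fun i hi => ?_
  rw [load_update S j s i hi]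
  push_cast
  ring

end General

/-! ### Threshold networks -/

/-- A finite network: edges with two distinct endpoints, positive weights on edges and nodes. -/
structure Net (V E : Type) where
  a : E → V
  b : E → V
  hab : ∀ e, a e ≠ b e
  w : E → ℝ
  τ : V → ℝ
  w_pos : ∀ e, 0 < w e
  τ_pos : ∀ v, 0 < τ v

namespace Net

variable {V E : Type} [Fintype V] [Fintype E] [DecidableEq V] [DecidableEq E] [Nonempty E]
  (N : Net V E)

/-- The game of a network: every node is an agent; node `v` owns a private site of weight `τ v` and
cost `|E|`, every edge is a site of cost `1` shared by its two endpoints; budgets are `|E|`. -/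
def game : Game V (V ⊕ E) where
  interested v := Sum.elim (fun u => u = v) (fun e => N.a e = v ∨ N.b e = v)
  q := Sum.elim N.τ N.w
  C := Sum.elim (fun _ => (Fintype.card E : ℝ)) (fun _ => 1)
  B _ := (Fintype.card E : ℝ)
  q_pos := by rintro (u | e); exacts [N.τ_pos u, N.w_pos e]
  C_pos := by
    rintro (u | e)
    · have : 0 < Fintype.card E := Fintype.card_pos
      simpa using this
    · simp
  B_pos := fun _ => by exact_mod_cast (Fintype.card_pos : 0 < Fintype.card E)

/-- The indicator of a Boolean. -/
def ind (x : Bool) : ℝ := if x then 1 else 0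

/-- The strategy of node `v` when its bit is `x`: all incident edges if `x`, else the private
site. -/
def strat (v : V) (x : Bool) : Finset (V ⊕ E) :=
  if x then (univ.filter (fun e : E => N.a e = v ∨ N.b e = v)).map ⟨Sum.inr, Sum.inr_injective⟩
  else {Sum.inl v}

/-- The profile of a Boolean state. -/
def prof (s : V → Bool) : V → Finset (V ⊕ E) := fun v => N.strat v (s v)

/-- What node `v` gets from its incident edges. -/
noncomputable def gain (s : V → Bool) (v : V) : ℝ :=
  ∑ e, (if N.a e = v then N.w e / (ind (s (N.b e)) + 1) else 0)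
    + ∑ e, (if N.b e = v then N.w e / (ind (s (N.a e)) + 1) else 0)

omit [DecidableEq E] [Nonempty E] [Fintype V] in
lemma mem_strat_inl {v : V} {x : Bool} {u : V} :
    (Sum.inl u : V ⊕ E) ∈ N.strat v x ↔ x = false ∧ u = v := by
  unfold strat
  cases x <;> simp

omit [DecidableEq E] [Nonempty E] [Fintype V] in
lemma mem_strat_inr {v : V} {x : Bool} {e : E} :
    (Sum.inr e : V ⊕ E) ∈ N.strat v x ↔ x = true ∧ (N.a e = v ∨ N.b e = v) := by
  unfold strat
  cases x <;> simp

lemma feasible_strat (v : V) (x : Bool) : N.game.Feasible v (N.strat v x) := by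
  constructor
  · rintro (u | e) h
    · rw [mem_strat_inl] at h
      exact h.2
    · rw [mem_strat_inr] at h
      exact h.2
  · cases x
    · simp [strat, game]
    · simp only [strat, if_true, sum_map, Function.Embedding.coeFn_mk, game, Sum.elim_inr,
        sum_const, nsmul_eq_mul, mul_one]
      exact_mod_cast card_le_univ _

lemma isState_prof (s : V → Bool) : N.game.IsState (N.prof s) := fun v =>
  N.feasible_strat v (s v)

lemma others_inl (s : V → Bool) (v : V) : others (N.prof s) v (Sum.inl v) = 0 := by
  unfold others
  rw [card_eq_zero, filter_eq_empty_iff]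
  rintro k - ⟨h1, h2⟩
  have h3 : (Sum.inl v : V ⊕ E) ∈ N.strat k (s k) := h2
  rw [mem_strat_inl] at h3
  exact h1 h3.2.symm

lemma others_a (s : V → Bool) (e : E) :
    (others (N.prof s) (N.a e) (Sum.inr e) : ℝ) = ind (s (N.b e)) := by
  unfold others
  have h : (univ.filter fun k : V => k ≠ N.a e ∧ (Sum.inr e : V ⊕ E) ∈ N.prof s k)
      = if s (N.b e) then {N.b e} else ∅ := by
    ext k
    have h1 : (Sum.inr e : V ⊕ E) ∈ N.prof s k ↔ s k = true ∧ (N.a e = k ∨ N.b e = k) :=
      N.mem_strat_inr
    have h2 := N.hab e
    simp only [mem_filter, mem_univ, true_and, h1]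
    constructor
    · rintro ⟨h3, h4, h5 | h5⟩
      · exact absurd h5.symm h3
      · rw [h5, if_pos h4]
        exact mem_singleton_self k
    · intro h3
      split_ifs at h3 with h4
      · rw [mem_singleton] at h3
        subst h3
        exact ⟨fun h5 => h2 h5.symm, h4, Or.inr rfl⟩
      · simp at h3
  rw [h]
  unfold ind
  split_ifs <;> simp

lemma others_b (s : V → Bool) (e : E) :
    (others (N.prof s) (N.b e) (Sum.inr e) : ℝ) = ind (s (N.a e)) := by
  unfold others
  have h : (univ.filter fun k : V => k ≠ N.b e ∧ (Sum.inr e : V ⊕ E) ∈ N.prof s k)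
      = if s (N.a e) then {N.a e} else ∅ := by
    ext k
    have h1 : (Sum.inr e : V ⊕ E) ∈ N.prof s k ↔ s k = true ∧ (N.a e = k ∨ N.b e = k) :=
      N.mem_strat_inr
    have h2 := N.hab e
    simp only [mem_filter, mem_univ, true_and, h1]
    constructor
    · rintro ⟨h3, h4, h5 | h5⟩
      · rw [h5, if_pos h4]
        exact mem_singleton_self k
      · exact absurd h5.symm h3
    · intro h3
      split_ifs at h3 with h4
      · rw [mem_singleton] at h3
        subst h3
        exact ⟨fun h5 => h2 h5, h4, Or.inl rfl⟩
      · simp at h3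
  rw [h]
  unfold ind
  split_ifs <;> simp

/-- Payoff of deviating to the private site. -/
lemma payoff_off (s : V → Bool) (v : V) :
    N.game.payoff (Function.update (N.prof s) v (N.strat v false)) v = N.τ v := by
  rw [payoff_update]
  have : N.strat v false = {Sum.inl v} := by simp [strat]
  rw [this, sum_singleton, others_inl]
  simp [game]

/-- Payoff of deviating to the incident edges. -/
lemma payoff_on (s : V → Bool) (v : V) :
    N.game.payoff (Function.update (N.prof s) v (N.strat v true)) v = N.gain s v := by
  rw [payoff_update]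
  have h1 : ∑ i ∈ N.strat v true, N.game.q i / ((others (N.prof s) v i : ℝ) + 1)
      = ∑ e ∈ univ.filter (fun e : E => N.a e = v ∨ N.b e = v),
        N.w e / ((others (N.prof s) v (Sum.inr e) : ℝ) + 1) := by
    simp [strat, sum_map, game]
  rw [h1, filter_or, sum_union]
  · unfold gain
    congr 1
    · rw [sum_filter]
      refine sum_congr rfl fun e _ => ?_
      split_ifs with h
      · subst h
        rw [others_a]
      · rfl
    · rw [sum_filter]
      refine sum_congr rfl fun e _ => ?_
      split_ifs with h
      · subst h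
        rw [others_b]
      · rfl
  · rw [disjoint_filter]
    intro e _ h1 h2
    exact N.hab e (h1.trans h2.symm)

/-- Every feasible strategy is worth at most the better of the two standard ones. -/
lemma payoff_le (s : V → Bool) (v : V) (t : Finset (V ⊕ E)) (ht : N.game.Feasible v t) :
    N.game.payoff (Function.update (N.prof s) v t) v ≤ max (N.τ v) (N.gain s v) := by
  by_cases h : (Sum.inl v : V ⊕ E) ∈ t
  · -- then `t` is the private site
    have h1 : t = {Sum.inl v} := by
      by_contra hne
      obtain ⟨y, hy, hyv⟩ : ∃ y ∈ t, y ≠ Sum.inl v := by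
        by_contra hcon
        push Not at hcon
        exact hne (eq_singleton_iff_unique_mem.2 ⟨h, hcon⟩)
      have h2 : ∑ i ∈ ({Sum.inl v, y} : Finset (V ⊕ E)), N.game.C i ≤ ∑ i ∈ t, N.game.C i := by
        refine sum_le_sum_of_subset_of_nonneg ?_ fun i _ _ => (N.game.C_pos i).le
        intro i hi
        rw [mem_insert, mem_singleton] at hi
        rcases hi with rfl | rfl
        · exact h
        · exact hy
      rw [sum_pair (Ne.symm hyv)] at h2
      have h3 := N.game.C_pos y
      have h4 : N.game.C (Sum.inl v) = N.game.B v := rfl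
      have h5 := ht.2
      linarith
    have h2 : t = N.strat v false := by
      rw [h1]
      simp [strat]
    rw [h2, payoff_off]
    exact le_max_left _ _
  · have h1 : t ⊆ N.strat v true := by
      rintro (u | e) hy
      · have := ht.1 _ hy
        have h3 : u = v := this
        subst h3
        exact absurd hy h
      · have := ht.1 _ hy
        rw [mem_strat_inr]
        exact ⟨rfl, this⟩
    refine le_trans ?_ (le_max_right _ _)
    rw [← payoff_on, payoff_update, payoff_update]
    refine sum_le_sum_of_subset_of_nonneg h1 fun i _ _ => ?_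
    have := N.game.q_pos i
    positivity

/-- Flip the bit of node `v`. -/
def flip (s : V → Bool) (v : V) : V → Bool := Function.update s v (!s v)

omit [DecidableEq E] [Nonempty E] [Fintype V] in
lemma prof_flip (s : V → Bool) (v : V) :
    N.prof (flip s v) = Function.update (N.prof s) v (N.strat v (!s v)) := by
  funext u
  unfold flip
  by_cases h : u = v
  · subst h
    simp [prof]
  · simp [prof, h]

/-- Switching on is a best-response move when it pays. -/
lemma move_on (s : V → Bool) (v : V) (hs : s v = false) (h : N.τ v < N.gain s v) :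
    N.game.Move (N.prof s) (N.prof (flip s v)) := by
  refine ⟨v, N.strat v true, ⟨N.feasible_strat v true, fun t ht => ?_⟩, ?_, ?_⟩
  · rw [payoff_on]
    refine (N.payoff_le s v t ht).trans ?_
    rw [max_eq_right h.le]
  · rw [prof_flip, hs]
    rfl
  · rw [prof_flip, hs]
    have h1 : N.game.payoff (N.prof s) v = N.τ v := by
      rw [← N.payoff_off s v, ← hs]
      have : N.strat v (s v) = N.prof s v := rfl
      rw [this, Function.update_eq_self]
    rw [h1]
    have := N.payoff_on s v
    simp only [Bool.not_false]
    rw [this]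
    exact h

/-- Switching off is a best-response move when it pays. -/
lemma move_off (s : V → Bool) (v : V) (hs : s v = true) (h : N.gain s v < N.τ v) :
    N.game.Move (N.prof s) (N.prof (flip s v)) := by
  refine ⟨v, N.strat v false, ⟨N.feasible_strat v false, fun t ht => ?_⟩, ?_, ?_⟩
  · rw [payoff_off]
    refine (N.payoff_le s v t ht).trans ?_
    rw [max_eq_left h.le]
  · rw [prof_flip, hs]
    rfl
  · rw [prof_flip, hs]
    have h1 : N.game.payoff (N.prof s) v = N.gain s v := by
      rw [← N.payoff_on s v, ← hs]
      have : N.strat v (s v) = N.prof s v := rfl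
      rw [this, Function.update_eq_self]
    rw [h1]
    have := N.payoff_off s v
    simp only [Bool.not_true]
    rw [this]
    exact h

end Net

/-! ### The doubling network -/

/-- Nodes: `inl i` is the signal node `V i` (`i ≤ L`), `inr (inl k)` is `A k` and `inr (inr k)` is
`N k` (`k < L`). -/
abbrev Nd (L : ℕ) := Fin (L + 1) ⊕ (Fin L ⊕ Fin L)

/-- Six edges per level. -/
abbrev Ed (L : ℕ) := Fin L × Fin 6

/-- first endpoints -/
def eA (L : ℕ) : Ed L → Nd L
  | (k, 0) => Sum.inl k.castSucc
  | (k, 1) => Sum.inl k.castSucc
  | (k, 2) => Sum.inr (Sum.inl k)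
  | (k, 3) => Sum.inl k.castSucc
  | (k, 4) => Sum.inr (Sum.inl k)
  | (k, 5) => Sum.inr (Sum.inr k)

/-- second endpoints -/
def eB (L : ℕ) : Ed L → Nd L
  | (k, 0) => Sum.inr (Sum.inl k)
  | (k, 1) => Sum.inr (Sum.inr k)
  | (k, 2) => Sum.inr (Sum.inr k)
  | (k, 3) => Sum.inl k.succ
  | (k, 4) => Sum.inl k.succ
  | (k, 5) => Sum.inl k.succ

/-- the scale of level `k` -/
noncomputable def sc (k : ℕ) : ℝ := (1 / 32) ^ k

lemma sc_pos (k : ℕ) : 0 < sc k := by unfold sc; positivity

lemma sc_succ (k : ℕ) : sc (k + 1) = sc k / 32 := by unfold sc; rw [pow_succ]; ring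

/-- edge weights -/
noncomputable def eW (L : ℕ) : Ed L → ℝ
  | (k, 0) => 7 * sc k
  | (k, 1) => 4 * sc k
  | (k, 2) => 4 * sc k
  | (k, 3) => 2 * sc k
  | (k, 4) => 2 * sc k
  | (k, 5) => 3 * sc k

/-- node weights -/
noncomputable def nT (L : ℕ) : Nd L → ℝ :=
  Sum.elim (fun i => Fin.cases 1 (fun k => 99 / 20 * sc k) i)
    (Sum.elim (fun k => 39 / 4 * sc k) (fun k => 29 / 4 * sc k))

/-- The doubling network with `L` levels. -/
noncomputable def net (L : ℕ) : Net (Nd L) (Ed L) where
  a := eA L
  b := eB L
  hab := by
    rintro ⟨k, j⟩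
    fin_cases j <;> simp [eA, eB, Fin.ext_iff]
  w := eW L
  τ := nT L
  w_pos := by
    rintro ⟨k, j⟩
    have := sc_pos k
    fin_cases j <;> simp [eW, this]
  τ_pos := by
    rintro (i | k | k)
    · refine Fin.cases ?_ (fun k => ?_) i
      · simp [nT]
      · have := sc_pos k
        simp [nT, this]
    · have := sc_pos k
      simp [nT, this]
    · have := sc_pos k
      simp [nT, this]

open Net (ind)

lemma gain_A (L : ℕ) (s : Nd L → Bool) (k : Fin L) :
    (net L).gain s (Sum.inr (Sum.inl k)) = sc k * (7 / (ind (s (Sum.inl k.castSucc)) + 1)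
      + 4 / (ind (s (Sum.inr (Sum.inr k))) + 1) + 2 / (ind (s (Sum.inl k.succ)) + 1)) := by
  unfold Net.gain
  simp only [net, Fintype.sum_prod_type, Fin.sum_univ_six, eA, eB, eW]
  simp [Finset.sum_add_distrib]
  ring

lemma gain_N (L : ℕ) (s : Nd L → Bool) (k : Fin L) :
    (net L).gain s (Sum.inr (Sum.inr k)) = sc k * (4 / (ind (s (Sum.inl k.castSucc)) + 1)
      + 4 / (ind (s (Sum.inr (Sum.inl k))) + 1) + 3 / (ind (s (Sum.inl k.succ)) + 1)) := by
  unfold Net.gain
  simp only [net, Fintype.sum_prod_type, Fin.sum_univ_six, eA, eB, eW]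
  simp [Finset.sum_add_distrib]
  ring

lemma ind_nonneg (x : Bool) : 0 ≤ ind x := by unfold ind; split_ifs <;> norm_num

lemma div_ind (c : ℝ) (x : Bool) : c / (ind x + 1) = if x then c / 2 else c := by
  unfold ind
  cases x <;> norm_num

/-- the contribution of level `k` to the gain of its input node -/
noncomputable def child (L : ℕ) (s : Nd L → Bool) (k : Fin L) : ℝ :=
  sc k * (7 / (ind (s (Sum.inr (Sum.inl k))) + 1) + 4 / (ind (s (Sum.inr (Sum.inr k))) + 1)
    + 2 / (ind (s (Sum.inl k.succ)) + 1))

lemma child_nonneg (L : ℕ) (s : Nd L → Bool) (k : Fin L) : 0 ≤ child L s k := by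
  unfold child
  have := sc_pos k
  rw [div_ind, div_ind, div_ind]
  split_ifs <;> positivity

lemma child_le (L : ℕ) (s : Nd L → Bool) (k : Fin L) : child L s k ≤ 13 * sc k := by
  unfold child
  have := sc_pos k
  rw [div_ind, div_ind, div_ind]
  split_ifs <;> linarith

lemma le_child (L : ℕ) (s : Nd L → Bool) (k : Fin L) : 13 / 2 * sc k ≤ child L s k := by
  unfold child
  have := sc_pos k
  rw [div_ind, div_ind, div_ind]
  split_ifs <;> linarith

lemma gain_V (L : ℕ) (s : Nd L → Bool) (i : Fin (L + 1)) :
    (net L).gain s (Sum.inl i) = (∑ k : Fin L, if k.castSucc = i then child L s k else 0)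
      + ∑ k : Fin L, if k.succ = i then sc k * (2 / (ind (s (Sum.inl k.castSucc)) + 1)
      + 2 / (ind (s (Sum.inr (Sum.inl k))) + 1) + 3 / (ind (s (Sum.inr (Sum.inr k))) + 1)) else 0
      := by
  unfold Net.gain
  simp only [net, Fintype.sum_prod_type, Fin.sum_univ_six, eA, eB, eW]
  rw [← Finset.sum_add_distrib, ← Finset.sum_add_distrib]
  refine Finset.sum_congr rfl fun k _ => ?_
  have h : ¬ (k.castSucc = i ∧ k.succ = i) := by
    rintro ⟨h1, h2⟩
    rw [← h2] at h1
    simp [Fin.ext_iff] at h1
  by_cases h1 : k.castSucc = i
  · subst h1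
    have h2 : ¬ k.succ = k.castSucc := fun h2 => h ⟨rfl, h2⟩
    simp [child, Fin.ext_iff]
    ring
  · by_cases h2 : k.succ = i
    · subst h2
      simp [h1]
      ring
    · simp [h1, h2]

lemma gain_V_zero (L : ℕ) (hL : 0 < L) (s : Nd L → Bool) :
    1 < (net L).gain s (Sum.inl 0) := by
  rw [gain_V]
  have h1 : (∑ k : Fin L, if k.succ = 0 then sc k * (2 / (ind (s (Sum.inl k.castSucc)) + 1)
      + 2 / (ind (s (Sum.inr (Sum.inl k))) + 1) + 3 / (ind (s (Sum.inr (Sum.inr k))) + 1)) else 0)
      = 0 := by
    refine Finset.sum_eq_zero fun k _ => ?_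
    rw [if_neg (Fin.succ_ne_zero k)]
  rw [h1, add_zero]
  have h2 : child L s ⟨0, hL⟩ ≤ ∑ k : Fin L, if k.castSucc = 0 then child L s k else 0 := by
    refine le_trans (le_of_eq ?_) (Finset.single_le_sum (fun k _ => ?_)
      (Finset.mem_univ (⟨0, hL⟩ : Fin L)))
    · rw [if_pos]
      ext
      simp
    · split_ifs
      · exact child_nonneg L s k
      · exact le_rfl
  have h3 := le_child L s ⟨0, hL⟩
  have h4 : sc ((⟨0, hL⟩ : Fin L) : ℕ) = 1 := by simp [sc]
  rw [h4] at h3
  linarith

lemma gain_V_succ (L : ℕ) (s : Nd L → Bool) (k : Fin L) :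
    ∃ r : ℝ, 0 ≤ r ∧ r ≤ 13 / 32 * sc k ∧ (net L).gain s (Sum.inl k.succ) = r +
      sc k * (2 / (ind (s (Sum.inl k.castSucc)) + 1)
      + 2 / (ind (s (Sum.inr (Sum.inl k))) + 1) + 3 / (ind (s (Sum.inr (Sum.inr k))) + 1)) := by
  refine ⟨∑ k' : Fin L, if k'.castSucc = k.succ then child L s k' else 0, ?_, ?_, ?_⟩
  · refine Finset.sum_nonneg fun k' _ => ?_
    split_ifs
    · exact child_nonneg L s k'
    · exact le_rfl
  · by_cases h : (k : ℕ) + 1 < L
    · rw [Finset.sum_eq_single (⟨k + 1, h⟩ : Fin L)]
      · rw [if_pos (by ext; simp)]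
        refine (child_le L s _).trans ?_
        rw [sc_succ]
        linarith
      · intro b _ hb
        rw [if_neg]
        intro hb2
        apply hb
        ext
        have := congrArg Fin.val hb2
        simpa using this
      · intro h
        exact absurd (Finset.mem_univ _) h
    · rw [Finset.sum_eq_zero]
      · have := sc_pos k
        positivity
      · intro k' _
        rw [if_neg]
        intro hb2
        have := congrArg Fin.val hb2
        simp at this
        omega
  · rw [gain_V]
    congr 1
    simp

/-- A single improving flip in the network. -/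
def Step (L : ℕ) (s s' : Nd L → Bool) : Prop :=
  ∃ v, s' = Net.flip s v ∧ ((s v = false ∧ (net L).τ v < (net L).gain s v) ∨
    (s v = true ∧ (net L).gain s v < (net L).τ v))

/-- Sequences of steps with a prescribed number of steps. -/
inductive Steps {α : Type} (R : α → α → Prop) : ℕ → α → α → Prop
  | zero (a : α) : Steps R 0 a a
  | step {n : ℕ} {a b c : α} (h : R a b) (h' : Steps R n b c) : Steps R (n + 1) a c

lemma Steps.append {α : Type} {R : α → α → Prop} {m n : ℕ} {a b c : α} (h : Steps R m a b)
    (h' : Steps R n b c) : Steps R (m + n) a c := by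
  induction h with
  | zero a => simpa using h'
  | step h1 _ ih =>
    have := Steps.step h1 (ih h')
    rwa [Nat.add_right_comm] at this

lemma Steps.toFun {α : Type} {R : α → α → Prop} {n : ℕ} {a b : α} (h : Steps R n a b) :
    ∃ p : ℕ → α, p 0 = a ∧ ∀ t, t < n → R (p t) (p (t + 1)) := by
  induction h with
  | zero a => exact ⟨fun _ => a, rfl, fun t ht => absurd ht (by omega)⟩
  | @step n a b c h1 _ ih =>
    obtain ⟨p, hp0, hp⟩ := ih
    refine ⟨fun t => Nat.casesOn t a (fun t => p t), rfl, ?_⟩
    intro t ht
    rcases t with _ | t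
    · simpa [hp0] using h1
    · exact hp t (by omega)

/-- At least `m` steps. -/
def Reach (L m : ℕ) (s s' : Nd L → Bool) : Prop := ∃ n, m ≤ n ∧ Steps (Step L) n s s'

lemma Reach.append {L m n : ℕ} {a b c : Nd L → Bool} (h : Reach L m a b) (h' : Reach L n b c) :
    Reach L (m + n) a c := by
  obtain ⟨m', h1, h2⟩ := h
  obtain ⟨n', h3, h4⟩ := h'
  exact ⟨m' + n', by omega, h2.append h4⟩

lemma Reach.one {L : ℕ} {a b : Nd L → Bool} (h : Step L a b) : Reach L 1 a b :=
  ⟨1, le_rfl, Steps.step h (Steps.zero b)⟩

lemma step_A (L : ℕ) (s : Nd L → Bool) (k : Fin L)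
    (h : s (Sum.inr (Sum.inl k)) = s (Sum.inl k.castSucc)) :
    Step L s (Net.flip s (Sum.inr (Sum.inl k))) := by
  refine ⟨_, rfl, ?_⟩
  have hp := sc_pos k
  have hT : (net L).τ (Sum.inr (Sum.inl k)) = 39 / 4 * sc k := rfl
  rw [gain_A, hT, h]
  simp only [div_ind]
  cases s (Sum.inl k.castSucc)
  · left
    refine ⟨rfl, ?_⟩
    simp only [Bool.false_eq_true, if_false]
    split_ifs <;> linarith
  · right
    refine ⟨rfl, ?_⟩
    simp only [if_true]
    split_ifs <;> linarith

lemma step_N_off (L : ℕ) (s : Nd L → Bool) (k : Fin L) (h : s (Sum.inr (Sum.inr k)) = true)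
    (h1 : s (Sum.inl k.castSucc) = true) (h2 : s (Sum.inr (Sum.inl k)) = true) :
    Step L s (Net.flip s (Sum.inr (Sum.inr k))) := by
  refine ⟨_, rfl, Or.inr ⟨h, ?_⟩⟩
  have hp := sc_pos k
  have hT : (net L).τ (Sum.inr (Sum.inr k)) = 29 / 4 * sc k := rfl
  rw [gain_N, hT, h1, h2]
  simp only [div_ind, if_true]
  split_ifs <;> linarith

lemma step_N_on (L : ℕ) (s : Nd L → Bool) (k : Fin L) (h : s (Sum.inr (Sum.inr k)) = false)
    (h2 : s (Sum.inr (Sum.inl k)) = false) :
    Step L s (Net.flip s (Sum.inr (Sum.inr k))) := by
  refine ⟨_, rfl, Or.inl ⟨h, ?_⟩⟩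
  have hp := sc_pos k
  have hT : (net L).τ (Sum.inr (Sum.inr k)) = 29 / 4 * sc k := rfl
  rw [gain_N, hT, h2]
  simp only [div_ind, Bool.false_eq_true, if_false]
  split_ifs <;> linarith

/-- The output node switches on when exactly the node `N` or both other parents are on. -/
lemma step_V_on (L : ℕ) (s : Nd L → Bool) (k : Fin L) (h : s (Sum.inl k.succ) = false)
    (h1 : s (Sum.inr (Sum.inl k)) = s (Sum.inl k.castSucc))
    (h2 : s (Sum.inr (Sum.inr k)) = !s (Sum.inl k.castSucc)) :
    Step L s (Net.flip s (Sum.inl k.succ)) := by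
  refine ⟨_, rfl, Or.inl ⟨h, ?_⟩⟩
  have hp := sc_pos k
  have hT : (net L).τ (Sum.inl k.succ) = 99 / 20 * sc k := rfl
  obtain ⟨r, hr0, hr1, hr⟩ := gain_V_succ L s k
  rw [hr, hT, h1, h2]
  simp only [div_ind]
  cases s (Sum.inl k.castSucc)
  · simp only [Bool.false_eq_true, if_false, Bool.not_false, if_true]
    linarith
  · simp only [Bool.false_eq_true, if_false, Bool.not_true, if_true]
    linarith

lemma step_V_off (L : ℕ) (s : Nd L → Bool) (k : Fin L) (h : s (Sum.inl k.succ) = true)
    (h1 : s (Sum.inr (Sum.inl k)) = !s (Sum.inl k.castSucc))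
    (h2 : s (Sum.inr (Sum.inr k)) = true) :
    Step L s (Net.flip s (Sum.inl k.succ)) := by
  refine ⟨_, rfl, Or.inr ⟨h, ?_⟩⟩
  have hp := sc_pos k
  have hT : (net L).τ (Sum.inl k.succ) = 99 / 20 * sc k := rfl
  obtain ⟨r, hr0, hr1, hr⟩ := gain_V_succ L s k
  rw [hr, hT, h1, h2]
  simp only [div_ind]
  cases s (Sum.inl k.castSucc)
  · simp only [Bool.false_eq_true, if_false, Bool.not_false, if_true]
    linarith
  · simp only [Bool.false_eq_true, if_false, Bool.not_true, if_true]
    linarith

/-- The levels below node `V k` are waiting to react to a fresh flip of `V k`. -/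
def Ready (L : ℕ) (k : Fin (L + 1)) (s : Nd L → Bool) : Prop :=
  (∀ i : Fin L, i.castSucc = k → s (Sum.inr (Sum.inl i)) = s (Sum.inl k) ∧
    s (Sum.inr (Sum.inr i)) = true ∧ s (Sum.inl i.succ) = false) ∧
  (∀ i : Fin L, k < i.castSucc → s (Sum.inr (Sum.inl i)) = true ∧
    s (Sum.inr (Sum.inr i)) = true ∧ s (Sum.inl i.succ) = false)

/-- The net effect of the reaction: the node `A` of the level of `V k` flips. -/
def react (L : ℕ) (k : Fin (L + 1)) (s : Nd L → Bool) : Nd L → Bool :=
  Sum.elim (fun i => s (Sum.inl i)) (Sum.elim
    (fun i => if i.castSucc = k then !s (Sum.inr (Sum.inl i)) else s (Sum.inr (Sum.inl i)))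
    (fun i => s (Sum.inr (Sum.inr i))))

lemma flip_apply {L : ℕ} (s : Nd L → Bool) (v u : Nd L) :
    Net.flip s v u = if u = v then !s v else s u := by
  unfold Net.flip
  rw [Function.update_apply]

@[simp] lemma react_V {L : ℕ} (k : Fin (L + 1)) (s : Nd L → Bool) (i : Fin (L + 1)) :
    react L k s (Sum.inl i) = s (Sum.inl i) := rfl

@[simp] lemma react_N {L : ℕ} (k : Fin (L + 1)) (s : Nd L → Bool) (i : Fin L) :
    react L k s (Sum.inr (Sum.inr i)) = s (Sum.inr (Sum.inr i)) := rfl

lemma react_A {L : ℕ} (k : Fin (L + 1)) (s : Nd L → Bool) (i : Fin L) :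
    react L k s (Sum.inr (Sum.inl i)) =
      if i.castSucc = k then !s (Sum.inr (Sum.inl i)) else s (Sum.inr (Sum.inl i)) := rfl

lemma reach_react (L : ℕ) (k : Fin (L + 1)) :
    ∀ s : Nd L → Bool, Ready L k s → Reach L (2 ^ (L - (k : ℕ)) - 1) s (react L k s) := by
  induction k using Fin.reverseInduction with
  | last =>
    intro s _
    have : react L (Fin.last L) s = s := by
      funext v
      rcases v with (i | i | i)
      · rfl
      · have h : ¬ i.castSucc = Fin.last L := by
          intro h
          have := congrArg Fin.val h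
          have h2 := i.2
          simp at this
          omega
        rw [react_A, if_neg h]
      · rfl
    rw [this]
    exact ⟨0, by simp, Steps.zero s⟩
  | cast i ih =>
    intro s hs
    obtain ⟨hA, hN, hV⟩ := hs.1 i rfl
    have hlow := hs.2
    have hne : ∀ j : Fin L, j.castSucc = i.succ → ¬ j = i := by
      rintro j hj rfl
      have := congrArg Fin.val hj
      simp at this
    have hii : ¬ i.castSucc = i.succ := fun h => hne i h rfl
    have hlt : ∀ j : Fin L, j.castSucc = i.succ → i.castSucc < j.castSucc := by
      intro j hj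
      rw [hj]
      exact Fin.castSucc_lt_succ
    have hlt2 : ∀ j : Fin L, i.succ < j.castSucc → i.castSucc < j.castSucc := by
      intro j hj
      exact lt_trans Fin.castSucc_lt_succ hj
    have hji : ∀ j : Fin L, i.castSucc < j.castSucc → ¬ j = i := by
      rintro j hj rfl
      exact lt_irrefl _ hj
    have hsi : ∀ j : Fin L, i.castSucc < j.castSucc → ¬ j.succ = i.succ := by
      intro j hj h
      exact hji j hj (Fin.succ_injective _ h)
    have hpow : 2 ^ (L - ((i.castSucc : Fin (L + 1)) : ℕ)) - 1
        ≤ 1 + (2 ^ (L - ((i.succ : Fin (L + 1)) : ℕ)) - 1) + 1 + 1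
          + (2 ^ (L - ((i.succ : Fin (L + 1)) : ℕ)) - 1) := by
      have h1 : L - ((i.castSucc : Fin (L + 1)) : ℕ) = L - ((i.succ : Fin (L + 1)) : ℕ) + 1 := by
        have := i.2
        simp
        omega
      rw [h1, pow_succ]
      have := Nat.one_le_two_pow (n := L - ((i.succ : Fin (L + 1)) : ℕ))
      omega
    -- after `V (i+1)` has been switched on, `A i` flips and `V (i+1)` is switched off again
    cases hx : s (Sum.inl i.castSucc)
    · -- the input has been switched off
      rw [hx] at hA
      have e1 : Step L s (Net.flip s (Sum.inl i.succ)) :=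
        step_V_on L s i hV (by rw [hA, hx]) (by rw [hN, hx]; rfl)
      set s1 := Net.flip s (Sum.inl i.succ) with hs1
      have e2 : Ready L i.succ s1 := by
        constructor
        · intro j hj
          have h1 := hlow j (hlt j hj)
          have h2 := hsi j (hlt j hj)
          rw [hs1]
          simp [flip_apply, h1, h2, hV]
        · intro j hj
          have h1 := hlow j (hlt2 j hj)
          have h2 := hsi j (hlt2 j hj)
          rw [hs1]
          simp [flip_apply, h1, h2]
      have e2' := ih s1 e2
      set s2 := react L i.succ s1 with hs2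
      have e3 : Step L s2 (Net.flip s2 (Sum.inr (Sum.inl i))) := by
        apply step_A
        rw [hs2, react_A, if_neg hii, react_V, hs1]
        simp [flip_apply, hA, hx, hii]
      set s3 := Net.flip s2 (Sum.inr (Sum.inl i)) with hs3
      have e4 : Step L s3 (Net.flip s3 (Sum.inl i.succ)) := by
        apply step_V_off
        · rw [hs3, hs2, hs1]
          simp [flip_apply, hV]
        · rw [hs3, hs2, hs1]
          simp [flip_apply, react_A, hii, hA, hx]
        · rw [hs3, hs2, hs1]
          simp [flip_apply, hN]
      set s4 := Net.flip s3 (Sum.inl i.succ) with hs4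
      have e5 : Ready L i.succ s4 := by
        constructor
        · intro j hj
          have h1 := hlow j (hlt j hj)
          have h2 := hsi j (hlt j hj)
          have h3 := hne j hj
          rw [hs4, hs3, hs2, hs1]
          simp [flip_apply, react_A, h1, h2, h3, hj, hV]
        · intro j hj
          have h1 := hlow j (hlt2 j hj)
          have h2 := hsi j (hlt2 j hj)
          have h3 := hji j (hlt2 j hj)
          have h4 : ¬ j.castSucc = i.succ := fun h => by rw [h] at hj; exact lt_irrefl _ hj
          rw [hs4, hs3, hs2, hs1]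
          simp [flip_apply, react_A, h1, h2, h3, h4]
      have e5' := ih s4 e5
      have hfin : react L i.succ s4 = react L i.castSucc s := by
        funext v
        rcases v with (j | j | j)
        · rw [hs4, hs3, hs2, hs1]
          by_cases h : j = i.succ
          · subst h
            simp [flip_apply]
          · simp [flip_apply, h]
        · rw [hs4, hs3, hs2, hs1]
          by_cases h : j = i
          · subst h
            simp [flip_apply, react_A, hii]
          · by_cases h2 : j.castSucc = i.succ
            · simp [flip_apply, react_A, h, h2]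
              intro h3
              exact absurd h3.symm hii
            · simp [flip_apply, react_A, h, h2]
        · rw [hs4, hs3, hs2, hs1]
          simp [flip_apply]
      rw [← hfin]
      have := ((((Reach.one e1).append e2').append (Reach.one e3)).append (Reach.one e4)).append e5'
      obtain ⟨n, hn, hn'⟩ := this
      exact ⟨n, hpow.trans hn, hn'⟩
    · -- the input has been switched on
      rw [hx] at hA
      have e0 : Step L s (Net.flip s (Sum.inr (Sum.inr i))) := step_N_off L s i hN hx hA
      set s0 := Net.flip s (Sum.inr (Sum.inr i)) with hs0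
      have e1 : Step L s0 (Net.flip s0 (Sum.inl i.succ)) := by
        apply step_V_on
        · rw [hs0]
          simp [flip_apply, hV]
        · rw [hs0]
          simp [flip_apply, hA, hx]
        · rw [hs0]
          simp [flip_apply, hN, hx]
      set s1 := Net.flip s0 (Sum.inl i.succ) with hs1
      have e2 : Ready L i.succ s1 := by
        constructor
        · intro j hj
          have h1 := hlow j (hlt j hj)
          have h2 := hsi j (hlt j hj)
          have h3 := hne j hj
          rw [hs1, hs0]
          simp [flip_apply, h1, h2, h3, hV]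
        · intro j hj
          have h1 := hlow j (hlt2 j hj)
          have h2 := hsi j (hlt2 j hj)
          have h3 := hji j (hlt2 j hj)
          rw [hs1, hs0]
          simp [flip_apply, h1, h2, h3]
      have e2' := ih s1 e2
      set s2 := react L i.succ s1 with hs2
      have e3 : Step L s2 (Net.flip s2 (Sum.inr (Sum.inl i))) := by
        apply step_A
        rw [hs2, react_A, if_neg hii, react_V, hs1, hs0]
        simp [flip_apply, hA, hx, hii]
      set s3 := Net.flip s2 (Sum.inr (Sum.inl i)) with hs3
      have e3' : Step L s3 (Net.flip s3 (Sum.inr (Sum.inr i))) := by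
        apply step_N_on
        · rw [hs3, hs2, hs1, hs0]
          simp [flip_apply, hN]
        · rw [hs3, hs2, hs1, hs0]
          simp [flip_apply, react_A, hii, hA]
      set s3' := Net.flip s3 (Sum.inr (Sum.inr i)) with hs3'
      have e4 : Step L s3' (Net.flip s3' (Sum.inl i.succ)) := by
        apply step_V_off
        · rw [hs3', hs3, hs2, hs1, hs0]
          simp [flip_apply, hV]
        · rw [hs3', hs3, hs2, hs1, hs0]
          simp [flip_apply, react_A, hii, hA, hx]
        · rw [hs3', hs3, hs2, hs1, hs0]
          simp [flip_apply, hN]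
      set s4 := Net.flip s3' (Sum.inl i.succ) with hs4
      have e5 : Ready L i.succ s4 := by
        constructor
        · intro j hj
          have h1 := hlow j (hlt j hj)
          have h2 := hsi j (hlt j hj)
          have h3 := hne j hj
          rw [hs4, hs3', hs3, hs2, hs1, hs0]
          simp [flip_apply, react_A, h1, h2, h3, hj, hV]
        · intro j hj
          have h1 := hlow j (hlt2 j hj)
          have h2 := hsi j (hlt2 j hj)
          have h3 := hji j (hlt2 j hj)
          have h4 : ¬ j.castSucc = i.succ := fun h => by rw [h] at hj; exact lt_irrefl _ hj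
          rw [hs4, hs3', hs3, hs2, hs1, hs0]
          simp [flip_apply, react_A, h1, h2, h3, h4]
      have e5' := ih s4 e5
      have hfin : react L i.succ s4 = react L i.castSucc s := by
        funext v
        rcases v with (j | j | j)
        · rw [hs4, hs3', hs3, hs2, hs1, hs0]
          by_cases h : j = i.succ
          · subst h
            simp [flip_apply]
          · simp [flip_apply, h]
        · rw [hs4, hs3', hs3, hs2, hs1, hs0]
          by_cases h : j = i
          · subst h
            simp [flip_apply, react_A, hii]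
          · by_cases h2 : j.castSucc = i.succ
            · simp [flip_apply, react_A, h, h2]
              intro h3
              exact absurd h3.symm hii
            · simp [flip_apply, react_A, h, h2]
        · rw [hs4, hs3', hs3, hs2, hs1, hs0]
          by_cases h : j = i
          · subst h
            simp [flip_apply]
          · simp [flip_apply, h]
      rw [← hfin]
      have := ((((((Reach.one e0).append (Reach.one e1)).append e2').append
        (Reach.one e3)).append (Reach.one e3')).append (Reach.one e4)).append e5'
      obtain ⟨n, hn, hn'⟩ := this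
      exact ⟨n, by omega, hn'⟩

/-- The initial state: only the nodes `A` and `N` are on. -/
def start (L : ℕ) : Nd L → Bool := Sum.elim (fun _ => false) (fun _ => true)

lemma long_run (L : ℕ) (hL : 0 < L) : ∃ s, Reach L (2 ^ L) (start L) s := by
  have h1 : Step L (start L) (Net.flip (start L) (Sum.inl 0)) :=
    ⟨_, rfl, Or.inl ⟨rfl, gain_V_zero L hL _⟩⟩
  have h2 : Ready L 0 (Net.flip (start L) (Sum.inl 0)) := by
    constructor
    · intro i hi
      simp [flip_apply, start]
    · intro i hi
      simp [flip_apply, start]
  have h3 := (Reach.one h1).append (reach_react L 0 _ h2)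
  obtain ⟨n, hn, hn'⟩ := h3
  refine ⟨react L 0 (Net.flip (start L) (Sum.inl 0)), n, ?_, hn'⟩
  have := Nat.one_le_two_pow (n := L)
  simp at hn
  omega

end Pool.Agent.H.MP_2a1065_lc
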